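import Pool.Agent.H49.CL.Targets
import Pool.Agent.H57.CN.Basics

/-! # KAP: far copies in a class on which a map is exact -/

set_option autoImplicit false
set_option linter.unusedVariables false

namespace Pool.Agent.H79.CL

open Pool.Agent.H68.BP Pool.Agent.H58.SF Pool.Agent.H53.NR
open Pool.Agent.H57.AR (tp ty Ty)
open Pool.Agent.H57.EQ (Cx)
open Pool.Agent.H44.KR (HB Tyi TpOn)
open Pool.Agent.H72.CH Pool.Agent.H49.CL
open Pool.Agent.H57.CN (lv_tp tp_comp)
open Function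

theorem kap_pair {V : Type} {ρ : Sig} {𝔹 : Str ρ V} {J : Type} {x y : J → V}
    (h : tp 𝔹 x = tp 𝔹 y) (s t : J) : tp 𝔹 ![x s, x t] = tp 𝔹 ![y s, y t] := by
  have e : ∀ u : J → V, (fun a => u ((![s, t] : Fin 2 → J) a)) = ![u s, u t] := by
    intro u
    funext a
    fin_cases a <;> rfl
  have h1 := tp_comp h ![s, t]
  rwa [e, e] at h1

theorem kap_out {V : Type} {ρ : Sig} {𝔹 : Str ρ V} {m : ℕ} {lv : V → V → ℕ}
    (hV : HV 𝔹 m lv) {J : Type} {h : ℕ} {p₀ : V} {Q : Finset V} {z' y : J → V} {u : J}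
    (h1 : tp 𝔹 z' = tp 𝔹 y) (h2 : h ≤ lv (z' u) p₀)
    (h3 : ∀ a, ∀ v ∈ Q, ∀ j, 1 ≤ j → j ≤ lv (z' a) v → j ≤ h ∧ j ≤ lv (z' a) p₀) {s : J}
    (hs : lv (y s) (y u) < h) : z' s ∈ Out lv h p₀ ∩ Off lv h Q := by
  have e : lv (z' s) (z' u) = lv (y s) (y u) := lv_tp hV h1 s u
  have k1 : lv (z' s) p₀ < h := by
    by_contra hc
    push Not at hc
    have k2 := hV.lev.pl.ult (z' s) p₀ (z' u)
    rw [hV.lev.pl.sym p₀ (z' u)] at k2
    have k3 : h ≤ min (lv (z' s) p₀) (lv (z' u) p₀) := le_min hc h2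
    omega
  refine ⟨k1, fun v hv => ?_⟩
  by_contra hc
  push Not at hc
  have := (h3 s v hv h (by omega) hc).2
  omega

theorem pf_KAP : T_KAP := by
  intro hN V ρ σ 𝔹 m lv 𝔸 i h R hV hT hL hG hR hmn hmx hhi him
  intro p₀ Q g hg hE n z F hz
  have pl := hV.lev.pl
  obtain ⟨κ, hκ⟩ := hG i h g p₀ (by omega)
  have c1 : ¬ i < κ := by
    intro hlt
    obtain ⟨n1, G, hG1⟩ := hL i him
    obtain ⟨k, y, ι, hc, ht, hx⟩ := hmx n1 G
    obtain ⟨a, b, hab⟩ := hG1 _ hc
    obtain ⟨z', h1, h2, h3, h4⟩ := hκ k y (ι a) Q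
    have hE' : ExU 𝔹 lv i R g {x | ∃ s, x = z' s ∧ lv (y s) (y (ι a)) < h} := by
      rintro x ⟨s, rfl, hs⟩ x' ⟨t, rfl, ht'⟩ hr
      exact hE _ (kap_out hV h1 h2 h3 hs) _ (kap_out hV h1 h2 h3 ht') hr
    have k1 := hx a g z' hg h1 hE'
    have k2 := hN V (Fin n1) m lv i (fun c => g (z' (ι c))) (fun c => y (ι c))
      {c | h ≤ lv (y (ι c)) (y (ι a))} pl him.le (by
        intro c hc' d hd' hcd
        have := (h4 (ι c) (ι d) hc' hd').1 hcd
        show i ≤ lv (y (ι c)) (y (ι d))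
        omega)
    have k3 := k2.2 ⟨a, by
      show h ≤ lv (y (ι a)) (y (ι a))
      rw [pl.self]
      omega, b, by
      show h ≤ lv (y (ι b)) (y (ι a))
      rw [pl.sym]
      have : lv (y (ι a)) (y (ι b)) = i := hab
      omega, by
      show i ≤ lv (y (ι a)) (y (ι b))
      exact (show lv (y (ι a)) (y (ι b)) = i from hab).ge, by
      intro hc'
      have e1 : lv (y (ι a)) (y (ι b)) = i := hab
      have := (h4 (ι a) (ι b) (by rw [pl.self]; omega) (by rw [pl.sym]; omega)).1 hc'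
      omega⟩
    omega
  have c2 : ¬ κ < i := by
    intro hlt
    obtain ⟨n1, G, hG1⟩ := hL (i - 1) (by omega)
    obtain ⟨y, hc, ht, hx⟩ := hmn n1 G
    obtain ⟨a, b, hab⟩ := hG1 _ hc
    obtain ⟨z', h1, h2, h3, h4⟩ := hκ n1 y a Q
    have k1 := hx g z' hg h1
    have k2 := hN V (Fin n1) m lv i y (fun c => g (z' c)) Set.univ pl him.le (by
        intro s _ t _ hst
        show i ≤ lv (g (z' s)) (g (z' t))
        by_cases hs : h ≤ lv (y s) (y a)
        · have ht' : h ≤ lv (y t) (y a) := by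
            have u1 := pl.ult (y t) (y s) (y a)
            rw [pl.sym (y t) (y s)] at u1
            have u2 : h ≤ min (lv (y s) (y t)) (lv (y s) (y a)) := le_min (by omega) hs
            omega
          exact (h4 s t hs ht').2 (by omega)
        · push Not at hs
          have ht' : lv (y t) (y a) < h := by
            by_contra hc'
            push Not at hc'
            have u1 := pl.ult (y s) (y t) (y a)
            have u2 : h ≤ min (lv (y s) (y t)) (lv (y t) (y a)) := le_min (by omega) hc'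
            omega
          have hr : tp 𝔹 ![z' s, z' t] ∈ R := by
            rw [kap_pair h1]
            exact ht s t
          refine (hE _ (kap_out hV h1 h2 h3 hs) _ (kap_out hV h1 h2 h3 ht') hr).2 ?_
          rw [lv_tp hV h1 s t]
          exact hst)
    have k3 := k2.2 ⟨a, Set.mem_univ _, b, Set.mem_univ _, by
      show i ≤ lv (g (z' a)) (g (z' b))
      refine (h4 a b (by rw [pl.self]; omega) (by rw [pl.sym]; omega)).2 (by omega), by omega⟩
    omega
  have hκi : κ = i := by omega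
  subst hκi
  rcases Nat.eq_zero_or_pos n with h0 | h0
  · subst h0
    exact ⟨z, rfl, fun a => a.elim0, fun a => a.elim0, fun a => a.elim0⟩
  obtain ⟨z', h1, h2, h3, h4⟩ := hκ n z ⟨0, h0⟩ F
  refine ⟨z', h1, fun a => ?_, fun a v hv => ?_, fun a b => h4 a b (hz _ _) (hz _ _)⟩
  · have u1 := pl.ult (z' a) (z' ⟨0, h0⟩) p₀
    rw [lv_tp hV h1 a ⟨0, h0⟩] at u1
    exact (le_min (hz _ _) h2).trans u1
  · rcases Nat.eq_zero_or_pos (lv (z' a) v) with h5 | h5
    · omega
    · exact (h3 a v hv _ h5 le_rfl).1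

end Pool.Agent.H79.CL
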